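import Pool.Agent.W547.LN.Defs

/-!
# Products of abelian varieties of CM type in independent blocks
-/

set_option autoImplicit false

namespace Pool.Agent.W547.UB

open Module NumberField Pool.Agent.W547.KB Pool.Agent.W547.LN

open Classical in
/-- The abelian variety `Y` of CM type is nondegenerate (its Mumford-Tate group has the maximal
possible dimension `dim Y + 1`, where the factors of `Y` are meant to be simple and pairwise not
isogenous): the only integral relations between the functions `τ ↦ 1` (if `τ ∘ φ ∈ Φ k`), `-1`
(otherwise) on the group of automorphisms of the field of complex numbers, where `φ` runs through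
the embeddings of the CM fields `E k`, are the relations between the functions of conjugate
embeddings. -/
def NonDegenerate (Y : CMAV) : Prop :=
  ∀ a : (k : Y.I) → ((Y.factor k).E →+* ℂ) → ℤ,
    (∀ τ : ℂ ≃+* ℂ, ∑ k, ∑ φ : (Y.factor k).E →+* ℂ,
      a k φ * (if (τ : ℂ →+* ℂ).comp φ ∈ (Y.factor k).Φ then 1 else -1) = 0) →
    ∀ k φ, a k (ComplexEmbedding.conjugate φ) = a k φ

/-- The conditions on one block `B` of factors of `X`; one of the following four conditions holds.

* `small`: the factors have dimension at most three, and any two factors whose CM fields have the same
  Galois closure over `ℚ` have isomorphic CM types, unless these CM fields are Galois over `ℚ`;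
* `five`: the factors are isomorphic (up to isogeny) to factors of one abelian variety of CM type `Y`
  of dimension at most five;
* `seven`: the factors have the same CM type, with a CM field of degree at most fourteen;
* `nondegenerate`: the factors are isomorphic (up to isogeny) to factors of one nondegenerate
  abelian variety of CM type `Y`, of arbitrary dimension. -/
inductive GoodBlock (X : CMAV) (B : Set X.I) : Prop
  | small (degree : ∀ i ∈ B, finrank ℚ (X.factor i).E ≤ 6)
      (closure : ∀ i ∈ B, ∀ k ∈ B, IntermediateField.normalClosure ℚ (X.factor i).E ℂ =
        IntermediateField.normalClosure ℚ (X.factor k).E ℂ →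
          IsGalois ℚ (X.factor i).E ∨ SameType (X.factor i) (X.factor k)) : GoodBlock X B
  | five (Y : CMAV) (hY : finrank ℚ Y.H1 ≤ 10)
      (h : ∀ i ∈ B, ∃ k, SameType (X.factor i) (Y.factor k)) : GoodBlock X B
  | seven (A : CMPair) (hA : finrank ℚ A.E ≤ 14) (h : ∀ i ∈ B, SameType (X.factor i) A) :
      GoodBlock X B
  | nondegenerate (Y : CMAV) (hY : NonDegenerate Y)
      (h : ∀ i ∈ B, ∃ k, SameType (X.factor i) (Y.factor k)) : GoodBlock X B

/-- The factors of `X` are divided into blocks (`b i` is the block of the factor `i`). Each block
satisfies one of the conditions above; and for each block there is an automorphism of the field of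
complex numbers that acts as the complex conjugation on all embeddings of the CM fields in this block
and trivially on all embeddings of the CM fields in the other blocks. (The second condition
means that the intersection of the Galois closure of the fields of the block with the
compositum of the Galois closures of the fields of the other blocks is totally real; for one block it
is no condition.) -/
structure IndependentBlocks (X : CMAV) {J : Type} (b : X.I → J) : Prop where
  good : ∀ j, GoodBlock X {i | b i = j}
  independent : ∀ j, ∃ τ : ℂ ≃+* ℂ, ∀ i, ∀ φ : (X.factor i).E →+* ℂ,
    (b i = j → (τ : ℂ →+* ℂ).comp φ = ComplexEmbedding.conjugate φ) ∧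
      (b i ≠ j → (τ : ℂ →+* ℂ).comp φ = φ)

end Pool.Agent.W547.UB
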