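import Pool.Agent.W547.LN.Main
import Pool.Agent.W547.LF.Main
import Pool.Agent.W547.UB.Defs

/-!
# Decomposition of balanced families in independent blocks
-/

set_option autoImplicit false
set_option linter.unusedSectionVars false
set_option linter.unusedVariables false

namespace Pool.Agent.W547.UB

open NumberField Pool.Agent.H204R3.CM Pool.Agent.W547.KB Pool.Agent.W547.LD Pool.Agent.W547.LN
open Equiv Module

noncomputable section

variable {L : Type} [Field L] [NumberField L] [IsCMField L] [IsGalois ℚ L]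

/-- All balanced families of half systems in `P` are decomposed. -/
def GoodSet (X : CMAV) (j : L →+* ℂ) (P : Set (Set (L ≃ₐ[ℚ] L))) : Prop :=
  ∀ (κ : Type) [Fintype κ] [DecidableEq κ] (s : κ → Set (L ≃ₐ[ℚ] L)), (∀ k, s k ∈ P) →
    Balanced s → AlgX X j s

open Classical in
/-- The part of a balanced family in one of several independent sets is balanced. -/
theorem balanced_part {κ : Type} [Fintype κ] (s : κ → Set (L ≃ₐ[ℚ] L)) (hbal : Balanced s)
    (Q : κ → Prop) (g : L ≃ₐ[ℚ] L) (h1 : ∀ k, Q k → Comb.tr g (s k) = (s k)ᶜ)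
    (h2 : ∀ k, ¬ Q k → Comb.tr g (s k) = s k) :
    Balanced (fun k : {k // Q k} => s k.1) := by
  rw [balanced_iff] at hbal ⊢
  intro σ
  have e1 := hbal σ
  have e2 := hbal (σ * g)
  have e3 : ∀ k, Comb.eps (s k) (σ * g) = Comb.eps (Comb.tr g (s k)) σ := fun k => rfl
  rw [Finset.sum_congr rfl fun k _ => e3 k] at e2
  have e4 : ∑ k, (Comb.eps (s k) σ - Comb.eps (Comb.tr g (s k)) σ) =
      ∑ k, (if Q k then 2 * Comb.eps (s k) σ else 0) := by
    refine Finset.sum_congr rfl fun k _ => ?_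
    by_cases hk : Q k
    · rw [if_pos hk, h1 k hk, Comb.eps_compl]
      ring
    · rw [if_neg hk, h2 k hk, sub_self]
  rw [Finset.sum_sub_distrib, e1, e2, sub_zero, ← Finset.sum_filter,
    ← Finset.sum_subtype_eq_sum_filter] at e4
  have e5 : ∑ k : {k // Q k}, Comb.eps (s k.1) σ * 2 = 0 := by
    rw [e4]
    have e6 : (Finset.univ.subtype Q) = (Finset.univ : Finset {k // Q k}) := by
      ext k
      simp
    rw [e6]
    exact Finset.sum_congr rfl fun k _ => mul_comm _ _
  rw [← Finset.sum_mul] at e5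
  exact (mul_eq_zero.1 e5).resolve_right two_ne_zero

/-- The union of independent good sets is good. -/
theorem good_union (X : CMAV) (j : L →+* ℂ) {J : Type} (P : J → Set (Set (L ≃ₐ[ℚ] L)))
    (hgood : ∀ i, GoodSet X j (P i))
    (hsep : ∀ i, ∃ g : L ≃ₐ[ℚ] L, (∀ S ∈ P i, Comb.tr g S = Sᶜ) ∧
      ∀ i', i' ≠ i → ∀ S ∈ P i', Comb.tr g S = S) (n : ℕ) :
    ∀ (κ : Type) [Fintype κ] [DecidableEq κ], Fintype.card κ = n →
      ∀ s : κ → Set (L ≃ₐ[ℚ] L), (∀ k, ∃ i, s k ∈ P i) → Balanced s → AlgX X j s := by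
  classical
  induction n using Nat.strong_induction_on with
  | _ n ih =>
    intro κ _ _ hn s hs hbal
    rcases isEmpty_or_nonempty κ with he | ⟨⟨k0⟩⟩
    · exact algX_empty j s
    obtain ⟨i0, hi0⟩ := hs k0
    obtain ⟨g, hg1, hg2⟩ := hsep i0
    let Q : κ → Prop := fun k => s k ∈ P i0
    have h1 : ∀ k, Q k → Comb.tr g (s k) = (s k)ᶜ := fun k hk => hg1 _ hk
    have h2 : ∀ k, ¬ Q k → Comb.tr g (s k) = s k := by
      intro k hk
      obtain ⟨i, hi⟩ := hs k
      refine hg2 i ?_ _ hi
      rintro rfl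
      exact hk hi
    have hpart := balanced_part s hbal Q g h1 h2
    have hA : AlgX X j (fun k : {k // Q k} => s k.1) :=
      hgood i0 {k // Q k} _ (fun k => k.2) hpart
    refine algX_of_sub (Subtype.val : {k // Q k} → κ) Subtype.val_injective (fun k => rfl) hA ?_
    refine ih _ ?_ _ rfl _ (fun k => hs k.1)
      (balanced_of_sub (Subtype.val : {k // Q k} → κ) Subtype.val_injective (fun k => rfl) hbal
        hpart)
    rw [← hn]
    refine Fintype.card_subtype_lt (x := k0) ?_
    intro h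
    exact h ⟨⟨k0, hi0⟩, rfl⟩

end

end Pool.Agent.W547.UB
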