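import Pool.Agent.W547.UB.Tate

/-!
# Varieties with a good proper cover by an abelian variety of CM type in independent blocks
-/

set_option linter.unusedSectionVars false
set_option linter.unusedVariables false

namespace Pool.Agent.W547.UB

open Module Pool.Agent.W547.KB Pool.Agent.W547.LD Pool.Agent.W530.NF Pool.Agent.W547.LQ

theorem tate_cover (X : CMAV) {J : Type} (b : X.I → J) (hX : IndependentBlocks X b)
    {K V G : Type} [Field K] [CharZero K] [AddCommGroup V] [Module K V] [Group G]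
    (C : Comparison X K V) (ρ : Representation K G V) (χ : G →* K) (w : AbsoluteValue ℂ ℝ)
    (q : ℕ) (π : X.H1) (γ : G) (h : IsFrobeniusAt X C ρ χ w q π γ) (m : ℕ)
    {H : Type} [AddCommGroup H] [Module K H] (τ : Representation K G H) (φ : Forms K V m →ₗ[K] H)
    (hφ : ∀ s f, φ (act ρ χ m s f) = τ s (φ f)) (Δ : Subgroup G) (hΔ : Δ.FiniteIndex) (x : H)
    (hx : ∀ s ∈ Δ, τ s x = x) (hx' : x ∈ LinearMap.range φ) :
    ∃ g : Forms K V m, IsGenerated C g ∧ φ g = x := by
  obtain ⟨f, rfl⟩ := hx'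
  obtain ⟨g, hg, hg'⟩ := tate_open X b hX C ρ χ w q π γ h m Δ hΔ (LinearMap.ker φ)
    (fun s _ f hf => by
      rw [LinearMap.mem_ker] at hf ⊢
      rw [hφ, hf, map_zero]) f (fun s hs => by
      rw [LinearMap.mem_ker, map_sub, hφ, hx s hs, sub_self])
  refine ⟨g, hg, ?_⟩
  rw [LinearMap.mem_ker, map_sub, sub_eq_zero] at hg'
  exact hg'.symm

end Pool.Agent.W547.UB
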