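import Pool.Agent.W547.UB.Main
import Pool.Agent.W547.DP.PLim
import Pool.Agent.W547.DP.DMain
import Pool.Agent.W547.HR.Final
import Pool.Agent.W547.LQ.Quot

/-!
# Abelian varieties of CM type in independent blocks: Tate classes, standard conjectures
-/

set_option linter.unusedSectionVars false
set_option linter.unusedVariables false

namespace Pool.Agent.W547.UB

open NumberField Pool.Agent.H204R3.CM Pool.Agent.W547.KB Pool.Agent.W547.LD Pool.Agent.W530.NF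
open Equiv Module Pool.Agent.W547.HR Pool.Agent.W547.DP Filter Topology

noncomputable section

theorem tate_numberField_of_ring (X : CMAV)
    (hring : ∀ {κ : Type} [Finite κ] (f : X.H1 [⋀^κ]→ₗ[ℚ] ℚ), IsHodge X.per f → DWRing X κ f)
    {K V G : Type} [Field K]
    [CharZero K] [AddCommGroup V] [Module K V] [Group G] (C : Comparison X K V)
    (ρ : Representation K G V) (χ : G →* K) (w : AbsoluteValue ℂ ℝ) (q : ℕ) (π : X.H1)
    (γ : G) (h : LN.IsFrobeniusAt X C ρ χ w q π γ) {m : ℕ}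
    (f : V [⋀^Fin (2 * m)]→ₗ[K] K) (hf : LN.IsTateClass ρ χ f) : LN.IsGenerated C f := by
  obtain ⟨Δ, hΔ, hf⟩ := hf
  obtain ⟨N, hN, hNΔ⟩ := exists_pow_mem Δ hΔ γ
  refine LN.generated_of_ring X hring C w q h.ne_zero h.lt_one π
    h.shimuraTaniyama N m hN f fun v => ?_
  have h1 := hf _ hNΔ (fun k => C.ι (v k))
  simp only [pow_apply C.ι ρ γ h.apply_eq] at h1
  rw [map_pow, h.char_eq, ← pow_mul, mul_comm N m] at h1
  exact h1

theorem tate_finiteField_of_ring (p : ℕ) [Fact p.Prime] (a : ℕ) (ha : 0 < a)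
    (ν : PadicAlgCl p ≃+* ℂ) (X : CMAV)
    (hring : ∀ {κ : Type} [Finite κ] (f : X.H1 [⋀^κ]→ₗ[ℚ] ℚ), IsHodge X.per f → DWRing X κ f)
    (π : X.H1) (hπ : LN.IsCanonicalLift p a ν X π)
    {K V : Type} [Field K] [CharZero K] [AddCommGroup V] [Module K V]
    (C : Comparison X K V) (F : V →ₗ[K] V) (hF : LN.IsFrobeniusMap C π F)
    {m s : ℕ} (hs : 0 < s) (f : V [⋀^Fin (2 * m)]→ₗ[K] K)
    (hf : LN.IsTateClassOver F (p ^ a) s f) : LN.IsGenerated C f := by
  have hp : p.Prime := Fact.out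
  have hST : ShimuraTaniyama X (TF.absC p ν) (p ^ a) π := by
    constructor
    · intro i φ hφ
      rw [TF.absC_cast]
      exact hπ.slope_one i φ hφ
    · intro i φ hφ
      exact hπ.slope_zero i φ hφ
  have hw : TF.absC p ν ((p ^ a : ℕ) : ℂ) < 1 := by
    rw [TF.absC_cast, norm_pow, TF.norm_p]
    refine pow_lt_one₀ (by positivity) ?_ ha.ne'
    rw [inv_lt_one₀ (by exact_mod_cast hp.pos)]
    exact_mod_cast hp.one_lt
  have hFs : ∀ (N : ℕ) (x : X.H1), (F ^ N) (C.ι x) = C.ι (π ^ N * x) := by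
    intro N
    induction N with
    | zero =>
      intro x
      simp
    | succ N ih =>
      intro x
      rw [pow_succ', Module.End.mul_apply, ih, pow_succ', mul_assoc]
      exact hF _
  refine LN.generated_of_ring X hring C (TF.absC p ν) (p ^ a)
    (pow_pos hp.pos a).ne' hw π hST s m hs.ne' f fun v => ?_
  have h1 := hf (fun k => C.ι (v k))
  simp only [hFs s] at h1
  exact h1

/-- The rank of the group of cycles and the dimension of the space of Tate classes. -/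
theorem rank_of_ring (p : ℕ) [Fact p.Prime] (a : ℕ) (ha : 0 < a) (ν : PadicAlgCl p ≃+* ℂ)
    (X : CMAV)
    (hring : ∀ {κ : Type} [Finite κ] (f : X.H1 [⋀^κ]→ₗ[ℚ] ℚ), IsHodge X.per f → DWRing X κ f)
    (π : X.H1) (hπ : LN.IsCanonicalLift p a ν X π)
    (hw : IsWeilNumber (p ^ a) X π) {K V : Type} [Field K] [CharZero K] [AddCommGroup V]
    [Module K V] (C : Comparison X K V) (F : V →ₗ[K] V) (hF : LN.IsFrobeniusMap C π F) (s : ℕ)
    (hs : 0 < s) : RankEqual C (F ^ s) ((p ^ a) ^ s) := by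
  have h := good_ordinary X hring p a ha ν π hπ hw C F hF s hs
  refine ⟨exists_system h, fun A hA r => ⟨fun z hz hn => zero_of_trivial h hA hz hn, ?_⟩⟩
  have h1 : ((((p ^ a) ^ s : ℕ) : K)) ^ r = (((((p ^ a) ^ s : ℕ) : ℚ) ^ r : ℚ) : K) := by
    push_cast
    rfl
  rw [h1, finrank_eig C (F ^ s) (π ^ s) h.apply_eq, ← finrank_system h hA]

theorem hasPole_of_ring (p : ℕ) [Fact p.Prime] (a : ℕ) (ha : 0 < a) (ν : PadicAlgCl p ≃+* ℂ)
    (X : CMAV)
    (hring : ∀ {κ : Type} [Finite κ] (f : X.H1 [⋀^κ]→ₗ[ℚ] ℚ), IsHodge X.per f → DWRing X κ f)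
    (π : X.H1) (hπ : LN.IsCanonicalLift p a ν X π)
    (hw : IsWeilNumber (p ^ a) X π) {V : Type} [AddCommGroup V] [Module ℂ V]
    (C : Comparison X ℂ V) (F : V →ₗ[ℂ] V) (hF : LN.IsFrobeniusMap C π F) (s : ℕ) (hs : 0 < s) :
    HasPole C (F ^ s) ((p ^ a) ^ s) := by
  intro A hA r
  have hp : p.Prime := Fact.out
  have h := good_ordinary X hring p a ha ν π hπ hw C F hF s hs
  exact phi_limit h (Nat.one_lt_pow hs.ne' (Nat.one_lt_pow ha.ne' hp.one_lt)) hA r

section Blocks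

variable (X : CMAV) {J : Type} (b : X.I → J) (hX : IndependentBlocks X b)

include hX

theorem tate_numberField {K V G : Type} [Field K]
    [CharZero K] [AddCommGroup V] [Module K V] [Group G] (C : Comparison X K V)
    (ρ : Representation K G V) (χ : G →* K) (w : AbsoluteValue ℂ ℝ) (q : ℕ) (π : X.H1)
    (γ : G) (h : LN.IsFrobeniusAt X C ρ χ w q π γ) {m : ℕ}
    (f : V [⋀^Fin (2 * m)]→ₗ[K] K) (hf : LN.IsTateClass ρ χ f) : LN.IsGenerated C f :=
  tate_numberField_of_ring X (fun f hf => ring_blocks X b hX f hf) C ρ χ w q π γ h f hf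

theorem tate_finiteField (p : ℕ) [Fact p.Prime] (a : ℕ) (ha : 0 < a) (ν : PadicAlgCl p ≃+* ℂ)
    (π : X.H1) (hπ : LN.IsCanonicalLift p a ν X π)
    {K V : Type} [Field K] [CharZero K] [AddCommGroup V] [Module K V]
    (C : Comparison X K V) (F : V →ₗ[K] V) (hF : LN.IsFrobeniusMap C π F)
    {m s : ℕ} (hs : 0 < s) (f : V [⋀^Fin (2 * m)]→ₗ[K] K)
    (hf : LN.IsTateClassOver F (p ^ a) s f) : LN.IsGenerated C f :=
  tate_finiteField_of_ring p a ha ν X (fun f hf => ring_blocks X b hX f hf) π hπ C F hF hs f hf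

theorem tate_open {K V G : Type} [Field K] [CharZero K] [AddCommGroup V] [Module K V] [Group G]
    (C : Comparison X K V) (ρ : Representation K G V) (χ : G →* K) (w : AbsoluteValue ℂ ℝ)
    (q : ℕ) (π : X.H1) (γ : G) (h : LQ.IsFrobeniusAt X C ρ χ w q π γ) :
    LQ.TateForQuotients C ρ χ :=
  LQ.tate_quot X (fun f hf => ring_blocks X b hX f hf) C ρ χ w q π γ h

theorem conjD (p : ℕ) [Fact p.Prime] (a : ℕ) (ha : 0 < a) (ν : PadicAlgCl p ≃+* ℂ) (π : X.H1)
    (hπ : LN.IsCanonicalLift p a ν X π) {K V : Type} [Field K] [CharZero K] [AddCommGroup V]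
    [Module K V] (C : Comparison X K V) (F : V →ₗ[K] V) (hF : LN.IsFrobeniusMap C π F)
    {r s : ℕ} (hs : 0 < s) (z : V [⋀^Fin (2 * r)]→ₗ[K] K)
    (htate : LN.IsTateClassOver F (p ^ a) s z) (horth : IsOrthogonal C z) : z = 0 :=
  DP.conjectureD X (fun f hf => ring_blocks X b hX f hf) p a ha ν π hπ C F hF hs z htate horth

theorem rankEqual (p : ℕ) [Fact p.Prime] (a : ℕ) (ha : 0 < a) (ν : PadicAlgCl p ≃+* ℂ)
    (π : X.H1) (hπ : LN.IsCanonicalLift p a ν X π)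
    (hw : IsWeilNumber (p ^ a) X π) {K V : Type} [Field K] [CharZero K] [AddCommGroup V]
    [Module K V] (C : Comparison X K V) (F : V →ₗ[K] V) (hF : LN.IsFrobeniusMap C π F) (s : ℕ)
    (hs : 0 < s) : RankEqual C (F ^ s) ((p ^ a) ^ s) :=
  rank_of_ring p a ha ν X (fun f hf => ring_blocks X b hX f hf) π hπ hw C F hF s hs

theorem hasPole (p : ℕ) [Fact p.Prime] (a : ℕ) (ha : 0 < a) (ν : PadicAlgCl p ≃+* ℂ)
    (π : X.H1) (hπ : LN.IsCanonicalLift p a ν X π)
    (hw : IsWeilNumber (p ^ a) X π) {V : Type} [AddCommGroup V] [Module ℂ V]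
    (C : Comparison X ℂ V) (F : V →ₗ[ℂ] V) (hF : LN.IsFrobeniusMap C π F) (s : ℕ) (hs : 0 < s) :
    HasPole C (F ^ s) ((p ^ a) ^ s) :=
  hasPole_of_ring p a ha ν X (fun f hf => ring_blocks X b hX f hf) π hπ hw C F hF s hs

theorem pole (p : ℕ) [Fact p.Prime] (a : ℕ) (ha : 0 < a) (ν : PadicAlgCl p ≃+* ℂ)
    (π : X.H1) (hπ : LN.IsCanonicalLift p a ν X π) (hw : IsWeilNumber (p ^ a) X π) {V : Type}
    [AddCommGroup V] [Module ℂ V] (C : Comparison X ℂ V) (F : V →ₗ[ℂ] V)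
    (hF : LN.IsFrobeniusMap C π F) (s : ℕ) (hs : 0 < s) :
    (∃ A, IsCycleSystem C (F ^ s) ((p ^ a) ^ s) A) ∧
    ∀ A : ∀ n : ℕ, Submodule ℚ (V [⋀^Fin (2 * n)]→ₗ[ℂ] ℂ),
      IsCycleSystem C (F ^ s) ((p ^ a) ^ s) A → ∀ n : ℕ,
        (∀ z ∈ A n, IsNumericallyTrivial C A z → z = 0) ∧
        meromorphicOrderAt (Pool.Agent.H868R3.TwoOdd.zeta (((p ^ a) ^ s : ℕ) : ℝ) (F ^ s)) (n : ℂ) =
          ((-(finrank ℚ (A n) : ℤ) : ℤ) : WithTop ℤ) :=
  DP.pole X (fun f hf => ring_blocks X b hX f hf) p a ha ν π hπ hw C F hF s hs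

theorem hodgeStandard (p : ℕ) [Fact p.Prime] (a : ℕ) (ha : 0 < a) (ν : PadicAlgCl p ≃+* ℂ)
    (π : X.H1)
    (hπ : LN.IsCanonicalLift p a ν X π) {K V : Type} [Field K] [CharZero K] [AddCommGroup V]
    [Module K V] (C : Comparison X K V) (F : V →ₗ[K] V) (hF : LN.IsFrobeniusMap C π F)
    {E : X.H1 → X.H1 → ℚ} (hE : IsPolarization X E) (r m : ℕ)
    (hrm : 2 * (2 * r + m) = finrank ℚ X.H1) (z : V [⋀^Fin r × Fin 2]→ₗ[K] K) (s : ℕ) (hs : 0 < s)
    (htate : IsTateOver F (p ^ a) s z) (hrat : HasRationalNumbers C z)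
    (hprim : IsPrimitive C E m z) (hz : z ≠ 0) : IsPositive C E m z :=
  HR.hodgeStandard X (fun f hf => ring_blocks X b hX f hf) p a ha ν π hπ C F hF hE r m hrm z s hs
    htate hrat hprim hz

end Blocks

end

end Pool.Agent.W547.UB
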