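import Pool.Agent.W547.UB.CrysDefs
import Pool.Agent.W547.UB.Tate

/-!
# Crystalline Tate classes
-/

set_option linter.unusedSectionVars false
set_option linter.unusedVariables false

namespace Pool.Agent.W547.UB

open NumberField Pool.Agent.H204R3.CM Pool.Agent.W547.KB Pool.Agent.W547.LD Pool.Agent.W530.NF
open Equiv Module Pool.Agent.W547.HR Pool.Agent.W547.DP
open scoped TensorProduct

noncomputable section

/-- Expansion of a form in a basis. -/
theorem form_expand' {R M : Type} [Field R] [AddCommGroup M] [Module R M] {κ : Type} [Fintype κ]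
    [DecidableEq κ] {N : ℕ} (b : Basis (Fin N) R M)
    (f : M [⋀^κ]→ₗ[R] R) (v : κ → M) :
    ∑ I : κ → Fin N, f (fun k => b (I k)) *
      Matrix.det (Matrix.of fun k l => b.coord (I l) (v k)) = Fintype.card (Perm κ) * f v := by
  have h1 : ∀ u : κ → M, f u = ∑ I : κ → Fin N, (∏ k, b.coord (I k) (u k)) *
      f (fun k => b (I k)) := by
    intro u
    have h3 : u = fun l => ∑ s, b.coord s (u l) • b s := by
      funext l
      exact (b.sum_repr (u l)).symm
    conv_lhs => rw [h3]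
    change f.toMultilinearMap _ = _
    rw [MultilinearMap.map_sum]
    refine Finset.sum_congr rfl fun r _ => ?_
    rw [MultilinearMap.map_smul_univ, smul_eq_mul]
    rfl
  have h2 : ∀ σ : Perm κ, f v = ((Perm.sign σ : ℤ) : R) * ∑ I : κ → Fin N,
      (∏ k, b.coord (I k) (v (σ k))) * f (fun k => b (I k)) := by
    intro σ
    rw [← h1 (fun k => v (σ k))]
    have h3 : f (fun k => v (σ k)) = Perm.sign σ • f v := f.map_perm v σ
    rw [h3, Units.smul_def, zsmul_eq_mul, ← mul_assoc,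
        ← Int.cast_mul, ← Units.val_mul, Int.units_mul_self, Units.val_one, Int.cast_one, one_mul]
  have h3 : (Fintype.card (Perm κ) : R) * f v = ∑ σ : Perm κ, ((Perm.sign σ : ℤ) : R) *
      ∑ I : κ → Fin N, (∏ k, b.coord (I k) (v (σ k))) * f (fun k => b (I k)) := by
    rw [← Finset.sum_congr rfl (fun σ _ => h2 σ), Finset.sum_const, Finset.card_univ,
      nsmul_eq_mul]
  rw [h3]
  simp only [Finset.mul_sum]
  rw [Finset.sum_comm]
  refine Finset.sum_congr rfl fun I _ => ?_
  rw [Matrix.det_apply', Finset.mul_sum]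
  refine Finset.sum_congr rfl fun σ _ => ?_
  simp only [Matrix.of_apply]
  ring

variable {K₀ K V₀ : Type} [Field K₀] [CharZero K₀] [Field K] [Algebra K₀ K] [AddCommGroup V₀]
  [Module K₀ V₀]

/-- Extension of scalars for alternating forms. -/
theorem exists_baseChange [FiniteDimensional K₀ V₀] {κ : Type} [Finite κ]
    (f : V₀ [⋀^κ]→ₗ[K₀] K₀) : ∃ G : (K ⊗[K₀] V₀) [⋀^κ]→ₗ[K] K,
      ∀ u : κ → V₀, G (fun k => (1 : K) ⊗ₜ[K₀] u k) = algebraMap K₀ K (f u) := by
  classical
  have := Fintype.ofFinite κ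
  have hK : CharZero K := charZero_of_injective_algebraMap (algebraMap K₀ K).injective
  let b := Module.finBasis K₀ V₀
  let b' : Basis _ K (K ⊗[K₀] V₀) := b.baseChange K
  have hc : ∀ i (w : V₀), b'.coord i ((1 : K) ⊗ₜ[K₀] w) = algebraMap K₀ K (b.coord i w) := by
    intro i w
    rw [Basis.coord_apply, Basis.coord_apply, Basis.baseChange_repr_tmul, Algebra.smul_def, mul_one]
  let ζ : (κ → Fin (finrank K₀ V₀)) → (K ⊗[K₀] V₀) [⋀^κ]→ₗ[K] K := fun I =>
    Matrix.detRowAlternating.compLinearMap (LinearMap.pi (fun l => b'.coord (I l)))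
  have hζ : ∀ (I : κ → Fin (finrank K₀ V₀)) (v : κ → V₀), ζ I (fun k => (1 : K) ⊗ₜ[K₀] v k) =
      algebraMap K₀ K (Matrix.det (Matrix.of fun k l => b.coord (I l) (v k))) := by
    intro I v
    have h1 : ζ I (fun k => (1 : K) ⊗ₜ[K₀] v k) =
        Matrix.det (Matrix.of fun k l => b'.coord (I l) ((1 : K) ⊗ₜ[K₀] v k)) := rfl
    rw [h1]
    simp only [hc]
    rw [RingHom.map_det]
    rfl
  have hne : (Fintype.card (Perm κ) : K) ≠ 0 := Nat.cast_ne_zero.2 Fintype.card_ne_zero
  refine ⟨(Fintype.card (Perm κ) : K)⁻¹ • ∑ I, (algebraMap K₀ K (f (fun k => b (I k)))) • ζ I,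
    fun v => ?_⟩
  let E : ((K ⊗[K₀] V₀) [⋀^κ]→ₗ[K] K) →+ K :=
    { toFun := fun f => f (fun k => (1 : K) ⊗ₜ[K₀] v k), map_zero' := rfl,
      map_add' := fun _ _ => rfl }
  have h0 : (∑ I, (algebraMap K₀ K (f (fun k => b (I k)))) • ζ I)
      (fun k => (1 : K) ⊗ₜ[K₀] v k) =
      ∑ I, ((algebraMap K₀ K (f (fun k => b (I k)))) • ζ I) (fun k => (1 : K) ⊗ₜ[K₀] v k) :=
    map_sum E _ _
  rw [AlternatingMap.smul_apply, h0, smul_eq_mul]
  have h1 : ∑ I, ((algebraMap K₀ K (f (fun k => b (I k)))) • ζ I)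
      (fun k => (1 : K) ⊗ₜ[K₀] v k) =
      algebraMap K₀ K ((Fintype.card (Perm κ) : K₀) * f v) := by
    rw [← form_expand' b f v, map_sum]
    refine Finset.sum_congr rfl fun I _ => ?_
    rw [AlternatingMap.smul_apply, hζ, smul_eq_mul, map_mul]
  rw [h1, map_mul, map_natCast, ← mul_assoc, inv_mul_cancel₀ hne, one_mul]

/-- A form on the extension of scalars that vanishes on `V₀` is zero. -/
theorem eq_of_restr₀ {κ : Type} [Finite κ] (G G' : (K ⊗[K₀] V₀) [⋀^κ]→ₗ[K] K)
    (h : ∀ u : κ → V₀, G (fun k => (1 : K) ⊗ₜ[K₀] u k) = G' (fun k => (1 : K) ⊗ₜ[K₀] u k)) :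
    G = G' := by
  have := Fintype.ofFinite κ
  have h1 : G.toMultilinearMap = G'.toMultilinearMap := by
    refine multilinear_ext_span _ _ (Set.range fun u : V₀ => (1 : K) ⊗ₜ[K₀] u) ?_ ?_
    · rw [eq_top_iff]
      rintro x -
      induction x using TensorProduct.induction_on with
      | zero => exact Submodule.zero_mem _
      | tmul a u =>
        have h2 : a ⊗ₜ[K₀] u = a • ((1 : K) ⊗ₜ[K₀] u) := by
          rw [TensorProduct.smul_tmul', smul_eq_mul, mul_one]
        rw [h2]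
        exact Submodule.smul_mem _ _ (Submodule.subset_span ⟨u, rfl⟩)
      | add x y hx hy => exact Submodule.add_mem _ hx hy
    · intro v hv
      choose w hw using hv
      have hv' : v = fun l => (1 : K) ⊗ₜ[K₀] w l := funext fun l => (hw l).symm
      rw [hv']
      exact h w
  ext v
  exact congrFun (congrArg DFunLike.coe h1) v

/-- Crystalline Tate classes on an ordinary abelian variety such that the Hodge ring of the canonical
lift is generated. -/
theorem crystalline_of_ring (p : ℕ) [Fact p.Prime] (a : ℕ) (ha : 0 < a)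
    (ν : PadicAlgCl p ≃+* ℂ) (X : CMAV)
    (hring : ∀ {κ : Type} [Finite κ] (f : X.H1 [⋀^κ]→ₗ[ℚ] ℚ), IsHodge X.per f → DWRing X κ f)
    (π : X.H1) (hπ : LN.IsCanonicalLift p a ν X π) [FiniteDimensional K₀ V₀]
    (C : Comparison X K (K ⊗[K₀] V₀)) (F : V₀ →ₗ[K₀] V₀)
    (hF : LN.IsFrobeniusMap C π (F.baseChange K)) (s : ℕ) (hs : 0 < s) {m : ℕ}
    (A : Submodule K₀ (V₀ [⋀^Fin (2 * m)]→ₗ[K₀] K₀))
    (hA : ContainsRing C (π ^ s) ((p ^ a) ^ s) A) (f : V₀ [⋀^Fin (2 * m)]→ₗ[K₀] K₀)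
    (hf : IsTateForm (F ^ s) ((p ^ a) ^ s) f) : f ∈ A := by
  classical
  have hp : p.Prime := Fact.out
  have hK : CharZero K := charZero_of_injective_algebraMap (algebraMap K₀ K).injective
  let _ : Algebra ℚ K := DivisionRing.toRatAlgebra
  set Q : ℕ := (p ^ a) ^ s with hQdef
  have hQ : Q ≠ 0 := (pow_pos (pow_pos hp.pos a) s).ne'
  -- Frobenius
  have hFs : ∀ (N : ℕ) (x : X.H1), ((F.baseChange K) ^ N) (C.ι x) = C.ι (π ^ N * x) := by
    intro N
    induction N with
    | zero =>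
      intro x
      simp
    | succ N ih =>
      intro x
      rw [pow_succ', Module.End.mul_apply, ih, pow_succ', mul_assoc]
      exact hF _
  have hFt : ∀ (N : ℕ) (u : V₀), ((F.baseChange K) ^ N) ((1 : K) ⊗ₜ[K₀] u) =
      (1 : K) ⊗ₜ[K₀] ((F ^ N) u) := by
    intro N
    induction N with
    | zero =>
      intro u
      simp
    | succ N ih =>
      intro u
      rw [pow_succ', Module.End.mul_apply, ih, pow_succ', Module.End.mul_apply]
      rfl
  -- extension of the form
  obtain ⟨G, hG⟩ := exists_baseChange (K := K) f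
  have hGF : G.compLinearMap ((F.baseChange K) ^ s) = ((Q : K) ^ m) • G := by
    refine eq_of_restr₀ _ _ fun u => ?_
    change G (fun k => ((F.baseChange K) ^ s) ((1 : K) ⊗ₜ[K₀] u k)) = (Q : K) ^ m * G _
    simp only [hFt]
    rw [hG, hG, hf u, map_mul, map_pow, map_natCast]
  have hGπ : ∀ v : Fin (2 * m) → X.H1, G (fun k => C.ι (π ^ s * v k)) =
      (Q : K) ^ m * G (fun k => C.ι (v k)) := by
    intro v
    have h1 := DFunLike.congr_fun hGF (fun k => C.ι (v k))
    change G (fun k => ((F.baseChange K) ^ s) (C.ι (v k))) = (Q : K) ^ m * G _ at h1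
    simp only [hFs] at h1
    exact h1
  -- decomposition into rational eigenforms
  obtain ⟨n, c, fr, hc, hfr⟩ := exists_decomp (LF.restr C G)
  have hfr' : ∀ v : Fin (2 * m) → X.H1, G (fun k => C.ι (v k)) = ∑ i, fr i v • c i := hfr
  have heig : ∀ i (v : Fin (2 * m) → X.H1), fr i (fun k => π ^ s * v k) = (Q : ℚ) ^ m * fr i v := by
    intro i v
    have h1 := hGπ v
    rw [hfr' (fun k => π ^ s * v k), hfr' v, Finset.mul_sum] at h1
    have h2 : ∑ i, (fr i (fun k => π ^ s * v k) - (Q : ℚ) ^ m * fr i v) • c i = 0 := by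
      simp only [sub_smul, Finset.sum_sub_distrib]
      rw [h1, sub_eq_zero]
      refine Finset.sum_congr rfl fun i _ => ?_
      rw [mul_smul, Algebra.smul_def ((Q : ℚ) ^ m), map_pow, map_natCast]
    have h3 := Fintype.linearIndependent_iff.1 hc _ h2 i
    exact sub_eq_zero.1 h3
  have hDW : ∀ i, DWRing X (Fin (2 * m)) (fr i) := by
    intro i
    obtain ⟨z, hz⟩ := exists_ext C (fr i)
    obtain ⟨l, hl⟩ := exists_retraction K
    have hgen : LN.IsGenerated C z := by
      refine tate_finiteField_of_ring p a ha ν X hring π hπ C (F.baseChange K) hF hs z ?_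
      intro v
      have h1 : z.compLinearMap ((F.baseChange K) ^ s) =
          (((p ^ a : ℕ) : K) ^ (m * s)) • z := by
        have h2 : z.compLinearMap ((F.baseChange K) ^ s) -
            (((p ^ a : ℕ) : K) ^ (m * s)) • z = 0 := by
          refine LQ.eq_zero_of_restr C _ fun v => ?_
          change z (fun k => ((F.baseChange K) ^ s) (C.ι (v k))) -
            ((p ^ a : ℕ) : K) ^ (m * s) * z (fun k => C.ι (v k)) = 0
          simp only [hFs]
          rw [hz, hz, heig i v]
          rw [hQdef]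
          push_cast
          rw [← pow_mul, ← pow_mul, ← pow_mul, mul_comm s m, sub_self]
        exact sub_eq_zero.1 h2
      exact DFunLike.congr_fun h1 v
    obtain ⟨q', hq', hqv⟩ := exists_functional_form C z hgen l
    have h1 : q' = fr i := by
      ext v
      rw [hqv]
      change l (z (fun k => C.ι (v k))) = _
      rw [hz, retraction_cast l hl]
    rw [← h1]
    exact hq'
  choose z hzA hz using fun i => hA (fr i) (hDW i) (heig i)
  choose G' hG1 hG2 using hz
  have hsum : G = ∑ i, c i • G' i := by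
    have h2 : G - ∑ i, c i • G' i = 0 := by
      refine LQ.eq_zero_of_restr C _ fun v => ?_
      let E : ((K ⊗[K₀] V₀) [⋀^Fin (2 * m)]→ₗ[K] K) →+ K :=
        { toFun := fun f => f (fun k => C.ι (v k)), map_zero' := rfl, map_add' := fun _ _ => rfl }
      have h3 : (∑ i, c i • G' i) (fun k => C.ι (v k)) =
          ∑ i, (c i • G' i) (fun k => C.ι (v k)) := map_sum E _ _
      change G (fun k => C.ι (v k)) - (∑ i, c i • G' i) (fun k => C.ι (v k)) = 0
      rw [h3, hfr', sub_eq_zero]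
      refine Finset.sum_congr rfl fun i _ => ?_
      change _ = c i * G' i (fun k => C.ι (v k))
      rw [hG1, Algebra.smul_def, eq_ratCast, mul_comm]
    exact sub_eq_zero.1 h2
  -- a retraction from `K` to `K₀`
  have h1 : (1 : K) ∉ (⊥ : Submodule K₀ K) := fun h => one_ne_zero ((Submodule.mem_bot K₀).1 h)
  obtain ⟨l, hl, _⟩ := Submodule.exists_dual_map_eq_bot_of_notMem h1 inferInstance
  let r : K →ₗ[K₀] K₀ := (l 1)⁻¹ • l
  have hr : ∀ x : K₀, r (algebraMap K₀ K x) = x := by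
    intro x
    rw [Algebra.algebraMap_eq_smul_one, map_smul]
    change x • ((l 1)⁻¹ • l 1) = x
    rw [smul_eq_mul (l 1)⁻¹, inv_mul_cancel₀ hl, smul_eq_mul, mul_one]
  have hfin : f = ∑ i, r (c i) • z i := by
    ext u
    let E : (V₀ [⋀^Fin (2 * m)]→ₗ[K₀] K₀) →+ K₀ :=
      { toFun := fun f => f u, map_zero' := rfl, map_add' := fun _ _ => rfl }
    have h3 : (∑ i, r (c i) • z i) u = ∑ i, (r (c i) • z i) u := map_sum E _ _
    rw [h3]
    let E' : ((K ⊗[K₀] V₀) [⋀^Fin (2 * m)]→ₗ[K] K) →+ K :=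
      { toFun := fun f => f (fun k => (1 : K) ⊗ₜ[K₀] u k), map_zero' := rfl,
        map_add' := fun _ _ => rfl }
    have h4 : (∑ i, c i • G' i) (fun k => (1 : K) ⊗ₜ[K₀] u k) =
        ∑ i, (c i • G' i) (fun k => (1 : K) ⊗ₜ[K₀] u k) := map_sum E' _ _
    have h5 := hG u
    rw [hsum, h4] at h5
    have h6 := congrArg r h5
    rw [hr, map_sum] at h6
    rw [← h6]
    refine Finset.sum_congr rfl fun i _ => ?_
    change r (c i * G' i (fun k => (1 : K) ⊗ₜ[K₀] u k)) = r (c i) * z i u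
    rw [hG2, mul_comm, ← Algebra.smul_def, map_smul, smul_eq_mul, mul_comm]
  rw [hfin]
  exact A.sum_mem fun i _ => A.smul_mem _ (hzA i)

theorem crystalline (p : ℕ) [Fact p.Prime] (a : ℕ) (ha : 0 < a)
    (ν : PadicAlgCl p ≃+* ℂ) (X : CMAV) {J : Type} (b : X.I → J) (hX : IndependentBlocks X b)
    (π : X.H1) (hπ : LN.IsCanonicalLift p a ν X π) [FiniteDimensional K₀ V₀]
    (C : Comparison X K (K ⊗[K₀] V₀)) (F : V₀ →ₗ[K₀] V₀)
    (hF : LN.IsFrobeniusMap C π (F.baseChange K)) (s : ℕ) (hs : 0 < s) {m : ℕ}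
    (A : Submodule K₀ (V₀ [⋀^Fin (2 * m)]→ₗ[K₀] K₀))
    (hA : ContainsRing C (π ^ s) ((p ^ a) ^ s) A) (f : V₀ [⋀^Fin (2 * m)]→ₗ[K₀] K₀)
    (hf : IsTateForm (F ^ s) ((p ^ a) ^ s) f) : f ∈ A :=
  crystalline_of_ring p a ha ν X (fun f hf => ring_blocks X b hX f hf) π hπ C F hF s hs A hA f hf

end

end Pool.Agent.W547.UB
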