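import Pool.Agent.W547.DP.PDefs

/-!
# Spaces of classes in crystalline cohomology
-/

set_option autoImplicit false

namespace Pool.Agent.W547.UB

open Module Pool.Agent.W547.KB Pool.Agent.W547.LD Pool.Agent.W530.NF
open scoped TensorProduct

/-- Let `V₀` be the dual space of the first crystalline cohomology group (with coefficients in the
field `K₀`) of the reduction `A₀` of `X`, and let `C` be the comparison map from `H_1(X, ℚ)` to
`K ⊗ V₀`. The class `z ∈ H^{2m}(A₀, K₀)` (an alternating form in `2 m` variables on `V₀`) and the class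
`g ∈ H^{2m}(X, ℚ)` agree: there is a form on `K ⊗ V₀` that restricts to `z` on `V₀` and to `g` on
`H_1(X, ℚ)`. -/
def Agree {X : CMAV} {K₀ K V₀ : Type} [Field K₀] [Field K] [Algebra K₀ K] [AddCommGroup V₀]
    [Module K₀ V₀] (C : Comparison X K (K ⊗[K₀] V₀)) {κ : Type} (z : V₀ [⋀^κ]→ₗ[K₀] K₀)
    (g : X.H1 [⋀^κ]→ₗ[ℚ] ℚ) : Prop :=
  ∃ G : (K ⊗[K₀] V₀) [⋀^κ]→ₗ[K] K, (∀ v : κ → X.H1, G (fun k => C.ι (v k)) = (g v : K)) ∧
    ∀ u : κ → V₀, G (fun k => (1 : K) ⊗ₜ[K₀] u k) = algebraMap K₀ K (z u)

/-- The subspace `A` of `H^{2m}(A₀, K₀)` has the following property of the space spanned by the classes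
of algebraic cycles of codimension `m` on `A₀`, over the field with `Q` elements with Frobenius
endomorphism `π`: each class `g` on the lift `X` of `A₀` which belongs to the ring generated by the
classes of divisors and by the pull-backs of split Weil classes on fourfolds and sixfolds (these
classes are algebraic by the theorems of Lefschetz and Markman), and which is multiplied by `Q ^ m`
by the Frobenius endomorphism, agrees with a class in `A` (that of the specialization of the
cycle). -/
def ContainsRing {X : CMAV} {K₀ K V₀ : Type} [Field K₀] [Field K] [Algebra K₀ K]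
    [AddCommGroup V₀] [Module K₀ V₀] (C : Comparison X K (K ⊗[K₀] V₀)) (π : X.H1) (Q : ℕ) {m : ℕ}
    (A : Submodule K₀ (V₀ [⋀^Fin (2 * m)]→ₗ[K₀] K₀)) : Prop :=
  ∀ g : X.H1 [⋀^Fin (2 * m)]→ₗ[ℚ] ℚ, DWRing X (Fin (2 * m)) g →
    (∀ v : Fin (2 * m) → X.H1, g (fun k => π * v k) = (Q : ℚ) ^ m * g v) → ∃ z ∈ A, Agree C z g

end Pool.Agent.W547.UB
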