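import Pool.Agent.W547.UB.GenericDefs
import Pool.Agent.W547.UB.Tate

/-!
# Invariant classes of the generic point of an ordinary abelian variety over a finite field
-/

set_option linter.unusedSectionVars false
set_option linter.unusedVariables false

namespace Pool.Agent.W547.UB

open NumberField Pool.Agent.H204R3.CM Pool.Agent.W547.KB Pool.Agent.W547.LD Pool.Agent.W530.NF
open Equiv Module Pool.Agent.W547.LQ

noncomputable section

theorem noInvariants_of_ring (p : ℕ) [Fact p.Prime] (a : ℕ) (ha : 0 < a)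
    (ν : PadicAlgCl p ≃+* ℂ) (X : CMAV)
    (hring : ∀ {κ : Type} [Finite κ] (f : X.H1 [⋀^κ]→ₗ[ℚ] ℚ), IsHodge X.per f → DWRing X κ f)
    (π : X.H1) (hπ : LN.IsCanonicalLift p a ν X π)
    {K V : Type} [Field K] [CharZero K] [AddCommGroup V] [Module K V]
    (C : Comparison X K V) (F : V →ₗ[K] V) (hF : LN.IsFrobeniusMap C π F)
    {m : ℕ} (W : Submodule K (Forms K V m)) (hW : IsGenericKernel C F W) :
    HasNoInvariants F (p ^ a) W := by
  classical
  have hp : p.Prime := Fact.out
  have hq0 : ((p ^ a : ℕ) : K) ≠ 0 := Nat.cast_ne_zero.2 (pow_pos hp.pos a).ne'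
  have hq : ((p ^ a : ℕ) : K) ^ m ≠ 0 := pow_ne_zero _ hq0
  intro f hf
  have hfin : FiniteDimensional K V := by
    obtain ⟨N, b, b', -, -⟩ := DP.exists_basis C
    exact Module.Finite.of_basis b'
  let T : Forms K V m →ₗ[K] Forms K V m :=
    { toFun := fun f => (((p ^ a : ℕ) : K) ^ m)⁻¹ • f.compLinearMap F
      map_add' := fun f g => by
        ext v
        change _ * (f _ + g _) = _ * f _ + _ * g _
        ring
      map_smul' := fun c f => by
        ext v
        change _ * (c * f _) = c * (_ * f _)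
        ring }
  have hT : ∀ (f : Forms K V m) (v : Fin (2 * m) → V), T f v =
      (((p ^ a : ℕ) : K) ^ m)⁻¹ * f (fun k => F (v k)) := fun f v => rfl
  let S : Forms K V m →ₗ[K] Forms K V m := T - LinearMap.id
  have hS : ∀ f : Forms K V m, S f = T f - f := fun f => rfl
  have hkey : ∀ (f : Forms K V m) (v : Fin (2 * m) → X.H1),
      f (fun k => C.ι (π * v k)) = ((p ^ a : ℕ) : K) ^ m * T f (fun k => C.ι (v k)) := by
    intro f v
    rw [hT, mul_inv_cancel_left₀ hq]
    congr 1
    funext k
    exact (hF (v k)).symm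
  obtain ⟨f0, h1, h2⟩ := lift_invariant S (fun f hf => by
      have h3 : T (S f) = S f := by
        have h4 := hf
        rw [hS (S f), sub_eq_zero] at h4
        exact h4
      refine semisimple X C π (((p ^ a : ℕ) : ℚ) ^ m)
        (pow_ne_zero _ (Nat.cast_ne_zero.2 (pow_pos hp.pos a).ne')) f (S f)
        (fun v => ?_) (fun v => ?_)
      · rw [hkey, Rat.cast_pow, Rat.cast_natCast]
        congr 1
        change _ = f _ + (T f _ - f _)
        ring
      · rw [hkey, h3, Rat.cast_pow, Rat.cast_natCast]) W (fun f hf => by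
      rw [hS]
      exact W.sub_mem (W.smul_mem _ (hW.stable f hf)) hf) f (by
      have h3 : S f = (((p ^ a : ℕ) : K) ^ m)⁻¹ •
          (f.compLinearMap F - (((p ^ a : ℕ) : K) ^ m) • f) := by
        rw [smul_sub, smul_smul, inv_mul_cancel₀ hq, one_smul]
        rfl
      rw [h3]
      exact W.smul_mem _ hf)
  have h3 : T f0 = f0 := by
    rw [hS, sub_eq_zero] at h1
    exact h1
  have h4 : LN.IsGenerated C f0 := by
    refine tate_finiteField_of_ring p a ha ν X hring π hπ C F hF (m := m) (s := 1) one_pos f0 ?_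
    intro v
    rw [pow_one, mul_one]
    have h5 := hT f0 v
    rw [h3] at h5
    rw [h5, mul_inv_cancel_left₀ hq]
  have h5 : f0 ∈ W := hW.ring f0 h4
  have h6 := W.add_mem h2 h5
  rwa [sub_add_cancel] at h6

theorem noInvariants (p : ℕ) [Fact p.Prime] (a : ℕ) (ha : 0 < a)
    (ν : PadicAlgCl p ≃+* ℂ) (X : CMAV) {J : Type} (b : X.I → J) (hX : IndependentBlocks X b)
    (π : X.H1) (hπ : LN.IsCanonicalLift p a ν X π)
    {K V : Type} [Field K] [CharZero K] [AddCommGroup V] [Module K V]
    (C : Comparison X K V) (F : V →ₗ[K] V) (hF : LN.IsFrobeniusMap C π F)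
    {m : ℕ} (W : Submodule K (Forms K V m)) (hW : IsGenericKernel C F W) :
    HasNoInvariants F (p ^ a) W :=
  noInvariants_of_ring p a ha ν X (fun f hf => ring_blocks X b hX f hf) π hπ C F hF W hW

end

end Pool.Agent.W547.UB
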