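import Pool.Agent.W547.LN.TDefs
import Pool.Agent.W547.LQ.Defs

/-!
# Invariant classes of the generic point
-/

set_option autoImplicit false

namespace Pool.Agent.W547.UB

open Module Pool.Agent.W547.KB Pool.Agent.W547.LD Pool.Agent.W530.NF Pool.Agent.W547.LQ

/-- The subspace `W` of `H^{2m}(A₀, K)` has the following properties of the kernel of the restriction
to the generic point of `A₀`, for `m > 0`: it is stable under the Frobenius endomorphism `F`, and it
contains all linear combinations of classes in the ring generated on `X` by the classes of divisors
and by the pull-backs of split Weil classes on fourfolds and sixfolds (these classes are algebraic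
by the theorems of Lefschetz and Markman, so that they vanish on non-empty open subvarieties). -/
structure IsGenericKernel {X : CMAV} {K V : Type} [Field K] [AddCommGroup V] [Module K V]
    (C : Comparison X K V) (F : V →ₗ[K] V) {m : ℕ} (W : Submodule K (Forms K V m)) : Prop where
  stable : ∀ f ∈ W, f.compLinearMap F ∈ W
  ring : ∀ f : Forms K V m, LQ.IsGenerated C f → f ∈ W

/-- The Frobenius endomorphism `F` has no non-zero invariant in the quotient of
`H^{2m}(A₀, K(m))` by `W`: if `F f - q ^ m f` lies in `W`, then `f` lies in `W`. -/
def HasNoInvariants {K V : Type} [Field K] [AddCommGroup V] [Module K V] (F : V →ₗ[K] V) (q : ℕ)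
    {m : ℕ} (W : Submodule K (Forms K V m)) : Prop :=
  ∀ f : Forms K V m, f.compLinearMap F - ((q : K) ^ m) • f ∈ W → f ∈ W

end Pool.Agent.W547.UB
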