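import Pool.Agent.W547.UB.Comb
import Pool.Agent.W547.TM.Main

/-!
# Hodge classes on products of abelian varieties of CM type in independent blocks
-/

set_option autoImplicit false
set_option linter.unusedSectionVars false
set_option linter.unusedVariables false

namespace Pool.Agent.W547.UB

open NumberField Pool.Agent.H204R3.CM Pool.Agent.W547.KB Pool.Agent.W547.LD Pool.Agent.W547.LN
open Equiv Module

noncomputable section

variable {L : Type} [Field L] [NumberField L] [IsCMField L] [IsGalois ℚ L]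

/-- The restriction of an automorphism of the field of complex numbers. -/
theorem restrict_aut (j : L →+* ℂ) (τ : ℂ ≃+* ℂ) :
    ∃ g : L ≃ₐ[ℚ] L, ∀ x, j (g x) = τ (j x) := by
  have hinj : Function.Injective (fun g : L ≃ₐ[ℚ] L => j.comp (g : L →+* L)) := by
    intro g h hgh
    ext x
    exact j.injective (RingHom.congr_fun hgh x)
  have hfin : Finite (L →+* ℂ) := inferInstance
  have hbij : Function.Bijective (fun g : L ≃ₐ[ℚ] L => j.comp (g : L →+* L)) := by
    refine Function.Injective.bijective_of_nat_card_le hinj ?_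
    rw [IsGalois.card_aut_eq_finrank, Nat.card_eq_fintype_card, Embeddings.card]
  obtain ⟨g, hg⟩ := hbij.2 ((τ : ℂ →+* ℂ).comp j)
  exact ⟨g, fun x => RingHom.congr_fun hg x⟩

theorem big_of_sameType {A B : CMPair} (j : L →+* ℂ) (h : SameType A B)
    (hA : ∀ ψ : A.E →+* ℂ, ∃ φ : A.E →+* L, j.comp φ = ψ) :
    ∀ ψ : B.E →+* ℂ, ∃ φ : B.E →+* L, j.comp φ = ψ := by
  obtain ⟨e, -⟩ := h
  intro ψ
  obtain ⟨φ, hφ⟩ := hA (ψ.comp (e : A.E →+* B.E))
  refine ⟨φ.comp (e.symm : B.E →+* A.E), ?_⟩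
  ext x
  have h1 := RingHom.congr_fun hφ (e.symm x)
  change j (φ (e.symm x)) = ψ (e (e.symm x)) at h1
  rw [e.apply_symm_apply] at h1
  exact h1

theorem good_empty (X : CMAV) (j : L →+* ℂ) {P : Set (Set (L ≃ₐ[ℚ] L))} (hP : ∀ S, S ∉ P) :
    GoodSet X j P := by
  intro κ _ _ s hs hbal
  have : IsEmpty κ := ⟨fun k => hP _ (hs k)⟩
  exact algX_empty j s

theorem GoodSet.mono {X : CMAV} {j : L →+* ℂ} {P P' : Set (Set (L ≃ₐ[ℚ] L))}
    (h : GoodSet X j P') (hP : P ⊆ P') : GoodSet X j P :=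
  fun κ _ _ s hs hbal => h κ s (fun k => hP (hs k)) hbal

/-! ### The four kinds of blocks -/

theorem good_seven (X : CMAV) (j : L →+* ℂ) (A : CMPair) (hA : finrank ℚ A.E ≤ 14)
    (hj : ∀ ψ : A.E →+* ℂ, ∃ φ : A.E →+* L, j.comp φ = ψ) :
    GoodSet X j (Set.range (hs A j)) := by
  intro κ _ _ s hs' hbal
  exact algX_of_balanced j (stable_hs A j) (compl_hs A j) (fun S hS => by
    obtain ⟨φ, rfl⟩ := hS
    exact isHalf_hs A j φ) (trans_hs A j) ((ncard_hs A j hj).trans hA) X _ κ rfl s hs' hbal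

theorem good_five (X : CMAV) (j : L →+* ℂ) (Y : CMAV) (hY : finrank ℚ Y.H1 ≤ 10)
    (R : Set Y.I) (hj : ∀ k ∈ R, ∀ ψ : (Y.factor k).E →+* ℂ,
      ∃ φ : (Y.factor k).E →+* L, j.comp φ = ψ) :
    GoodSet X j {S | ∃ k ∈ R, S ∈ Set.range (hs (Y.factor k) j)} := by
  classical
  set P : Set (Set (L ≃ₐ[ℚ] L)) := {S | ∃ k ∈ R, S ∈ Set.range (hs (Y.factor k) j)} with hPdef
  have hP : Comb.Stable P := by
    rintro τ S ⟨k, hk, hS⟩
    exact ⟨k, hk, stable_hs (Y.factor k) j τ S hS⟩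
  have hcompl : ∀ S ∈ P, Sᶜ ∈ P := by
    rintro S ⟨k, hk, hS⟩
    exact ⟨k, hk, compl_hs (Y.factor k) j S hS⟩
  have hH : ∀ S ∈ P, IsHalf S := by
    rintro S ⟨k, hk, φ, rfl⟩
    exact isHalf_hs (Y.factor k) j φ
  have hcard : P.ncard ≤ 10 := by
    refine le_trans ?_ hY
    have h1 : finrank ℚ Y.H1 = ∑ i, finrank ℚ (Y.factor i).E := Module.finrank_pi_fintype ℚ
    rw [h1]
    let f : Y.I → Set (Set (L ≃ₐ[ℚ] L)) := fun k => if k ∈ R then Set.range (hs (Y.factor k) j)
      else ∅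
    have h2 : P.ncard ≤ ∑ i, (f i).ncard := by
      have h3 := Finset.set_ncard_biUnion_le (Finset.univ : Finset Y.I) f
      have h4 : (⋃ i ∈ (Finset.univ : Finset Y.I), f i) = P := by
        ext S
        simp only [Finset.mem_univ, Set.iUnion_true, Set.mem_iUnion]
        constructor
        · rintro ⟨k, hk⟩
          by_cases h5 : k ∈ R
          · have h6 : f k = Set.range (hs (Y.factor k) j) := if_pos h5
            rw [h6] at hk
            exact ⟨k, h5, hk⟩
          · have h6 : f k = ∅ := if_neg h5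
            rw [h6] at hk
            exact hk.elim
        · rintro ⟨k, hk, hS⟩
          refine ⟨k, ?_⟩
          have h6 : f k = Set.range (hs (Y.factor k) j) := if_pos hk
          rw [h6]
          exact hS
      rwa [h4] at h3
    refine h2.trans (Finset.sum_le_sum fun i _ => ?_)
    by_cases h5 : i ∈ R
    · have h6 : f i = Set.range (hs (Y.factor i) j) := if_pos h5
      rw [h6]
      exact ncard_hs (Y.factor i) j (hj i h5)
    · have h6 : f i = ∅ := if_neg h5
      rw [h6, Set.ncard_empty]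
      exact Nat.zero_le _
  intro κ _ _ s hs' hbal
  exact algX_of_blocks j X (· ∈ P)
    (fun κ _ _ _ s hs hbal hpair => block_five j hP hcompl hH hcard X κ s hs hbal hpair)
    _ κ rfl s hs' hbal

theorem good_small (X : CMAV) (j : L →+* ℂ)
    (hj : ∀ i, ∀ ψ : (X.factor i).E →+* ℂ, ∃ φ : (X.factor i).E →+* L, j.comp φ = ψ)
    (B : Set X.I) (hdeg : ∀ i ∈ B, finrank ℚ (X.factor i).E ≤ 6)
    (hclo : ∀ i ∈ B, ∀ k ∈ B, IntermediateField.normalClosure ℚ (X.factor i).E ℂ =
        IntermediateField.normalClosure ℚ (X.factor k).E ℂ →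
          IsGalois ℚ (X.factor i).E ∨ SameType (X.factor i) (X.factor k)) :
    GoodSet X j {S | ∃ i ∈ B, S ∈ Set.range (hs (X.factor i) j)} := by
  classical
  intro κ _ _ s hs' hbal
  let O : Finset (Set (Set (L ≃ₐ[ℚ] L))) :=
    (Finset.univ.filter fun i : X.I => i ∈ B).image fun i : X.I => Set.range (hs (X.factor i) j)
  have hmem : ∀ Q ∈ O, ∃ i ∈ B, Q = Set.range (hs (X.factor i) j) := by
    intro Q hQ
    obtain ⟨i, hi, h⟩ := Finset.mem_image.1 hQ
    exact ⟨i, (Finset.mem_filter.1 hi).2, h.symm⟩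
  refine algX_family j O ?_ ?_ ?_ X s ?_ hbal
  · intro Q hQ
    obtain ⟨i, hi, rfl⟩ := hmem Q hQ
    refine ⟨stable_hs (X.factor i) j, trans_hs (X.factor i) j, compl_hs (X.factor i) j, ?_,
      (ncard_hs (X.factor i) j (hj i)).trans (hdeg i hi)⟩
    rintro _ ⟨φ, rfl⟩
    exact isHalf_hs (X.factor i) j φ
  · intro Q hQ Q' hQ' hne
    obtain ⟨i, hi, rfl⟩ := hmem Q hQ
    obtain ⟨k, hk, rfl⟩ := hmem Q' hQ'
    rw [Set.disjoint_left]
    intro S hS hS'
    apply hne
    ext T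
    constructor
    · intro hT
      obtain ⟨g, hg⟩ := trans_hs (X.factor i) j S hS T hT
      rw [← hg]
      exact stable_hs (X.factor k) j g S hS'
    · intro hT
      obtain ⟨g, hg⟩ := trans_hs (X.factor k) j S hS' T hT
      rw [← hg]
      exact stable_hs (X.factor i) j g S hS
  · intro Q hQ Q' hQ' h2 h2' hker
    obtain ⟨i, hi, rfl⟩ := hmem Q hQ
    obtain ⟨k, hk, rfl⟩ := hmem Q' hQ'
    have hcl := le_antisymm
      (normalClosure_le (X.factor i) (X.factor k) j (hj i)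
        (hs_injective (X.factor i) j (hj i) (hdeg i hi) h2) hker.ge)
      (normalClosure_le (X.factor k) (X.factor i) j (hj k)
        (hs_injective (X.factor k) j (hj k) (hdeg k hk) h2') hker.le)
    rcases hclo i hi k hk hcl with h | h
    · exact range_eq_of_galois (X.factor i) (X.factor k) j (hj i) (hdeg i hi) h2 h2' hker h
    · exact range_eq_of_sameType (X.factor i) (X.factor k) j h
  · intro k
    obtain ⟨i, hi, hk⟩ := hs' k
    exact ⟨_, Finset.mem_image.2 ⟨i, Finset.mem_filter.2 ⟨Finset.mem_univ _, hi⟩, rfl⟩, hk⟩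

open Classical in
theorem good_nondegenerate (X : CMAV) (j : L →+* ℂ) (Y : CMAV) (hY : NonDegenerate Y)
    (R : Set Y.I) (hj : ∀ k ∈ R, ∀ ψ : (Y.factor k).E →+* ℂ,
      ∃ φ : (Y.factor k).E →+* L, j.comp φ = ψ) :
    GoodSet X j {S | ∃ k ∈ R, S ∈ Set.range (hs (Y.factor k) j)} := by
  intro κ _ _ s hs' hbal
  refine algX_of_blocks j X (· ∈ {S | ∃ k ∈ R, S ∈ Set.range (hs (Y.factor k) j)}) ?_ _ κ rfl s
    hs' hbal
  intro κ _ _ hne s hs' hbal hpair
  exfalso
  -- the weights of `Y`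
  have hw : ∀ k, ∃ w : Σ i : Y.I, ((Y.factor i).E →+* L), w.1 ∈ R ∧ s k = hs (Y.factor w.1) j w.2 := by
    intro k
    obtain ⟨i, hi, φ, h⟩ := hs' k
    exact ⟨⟨i, φ⟩, hi, h.symm⟩
  choose w hwR hws using hw
  -- a section of the map from weights to half systems
  let sec : κ → (Σ i : Y.I, ((Y.factor i).E →+* L)) := fun k =>
    w (Classical.choose (⟨k, rfl⟩ : ∃ l, s l = s k))
  have hsec : ∀ k, hs (Y.factor (sec k).1) j (sec k).2 = s k := by
    intro k
    have h1 := Classical.choose_spec (⟨k, rfl⟩ : ∃ l, s l = s k)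
    exact (hws _).symm.trans h1
  have hsecR : ∀ k, (sec k).1 ∈ R := fun k => hwR _
  let m : (k : Y.I) → ((Y.factor k).E →+* ℂ) → ℤ := fun i ψ =>
    ∑ k, if (⟨(sec k).1, j.comp (sec k).2⟩ : Σ i : Y.I, ((Y.factor i).E →+* ℂ)) = ⟨i, ψ⟩
      then 1 else 0
  have hrel := hY m ?_
  · obtain ⟨k0⟩ := hne
    have h1 := hrel (sec k0).1 (j.comp (sec k0).2)
    have h2 : 0 < m (sec k0).1 (j.comp (sec k0).2) := by
      refine Finset.sum_pos' (fun k _ => by split_ifs <;> norm_num) ⟨k0, Finset.mem_univ _, ?_⟩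
      rw [if_pos rfl]
      norm_num
    rw [← h1] at h2
    obtain ⟨k, -, hk⟩ := Finset.exists_ne_zero_of_sum_ne_zero h2.ne'
    have h3 : (⟨(sec k).1, j.comp (sec k).2⟩ : Σ i : Y.I, ((Y.factor i).E →+* ℂ)) =
        ⟨(sec k0).1, ComplexEmbedding.conjugate (j.comp (sec k0).2)⟩ := by
      by_contra h
      exact hk (if_neg h)
    have h4 : ComplexEmbedding.conjugate (j.comp (sec k0).2) = j.comp (cc L • (sec k0).2) := by
      ext x
      change _ = j (cc L ((sec k0).2 x))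
      rw [emb_cc, ComplexEmbedding.conjugate_coe_eq]
      rfl
    apply hpair k0 k
    have h5 : s k = {σ | j.comp (σ • (cc L • (sec k0).2)) ∈ (Y.factor (sec k0).1).Φ} := by
      rw [h4] at h3
      have h6 : ∀ (u v : Σ i : Y.I, ((Y.factor i).E →+* L)),
          (⟨u.1, j.comp u.2⟩ : Σ i : Y.I, ((Y.factor i).E →+* ℂ)) = ⟨v.1, j.comp v.2⟩ →
            hs (Y.factor u.1) j u.2 = hs (Y.factor v.1) j v.2 := by
        rintro ⟨i, φ⟩ ⟨i', φ'⟩ h
        have h7 : i = i' := congrArg Sigma.fst h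
        subst h7
        have h8 : j.comp φ = j.comp φ' := eq_of_heq (Sigma.mk.inj h).2
        have h9 : φ = φ' := by
          ext a
          exact j.injective (RingHom.congr_fun h8 a)
        rw [h9]
      rw [← hsec k]
      exact h6 (sec k) ⟨(sec k0).1, cc L • (sec k0).2⟩ h3
    rw [h5, ← hsec k0]
    change hs (Y.factor (sec k0).1) j (cc L • (sec k0).2) = _
    rw [← tr_hs]
    exact Comb.tr_c (fun g => cc_comm j g) (isHalf_hs _ j _)
  · intro τ
    obtain ⟨g, hg⟩ := restrict_aut j τ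
    have h1 := (balanced_iff s).1 hbal g
    have h2 : ∀ (i : Y.I) (ψ : (Y.factor i).E →+* L),
        ((τ : ℂ →+* ℂ).comp (j.comp ψ) ∈ (Y.factor i).Φ) ↔ g ∈ hs (Y.factor i) j ψ := by
      intro i ψ
      have h3 : (τ : ℂ →+* ℂ).comp (j.comp ψ) = j.comp (g • ψ) := by
        ext x
        exact (hg (ψ x)).symm
      rw [h3]
      rfl
    have h3 : ∑ i, ∑ ψ : (Y.factor i).E →+* ℂ,
        m i ψ * (if (τ : ℂ →+* ℂ).comp ψ ∈ (Y.factor i).Φ then (1 : ℤ) else -1) =
        ∑ k, if g ∈ s k then (1 : ℤ) else -1 := by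
      have h4 : ∀ (i : Y.I) (ψ : (Y.factor i).E →+* ℂ),
          m i ψ * (if (τ : ℂ →+* ℂ).comp ψ ∈ (Y.factor i).Φ then (1 : ℤ) else -1) =
          ∑ k, if (⟨(sec k).1, j.comp (sec k).2⟩ : Σ i : Y.I, ((Y.factor i).E →+* ℂ)) = ⟨i, ψ⟩
            then (if (τ : ℂ →+* ℂ).comp ψ ∈ (Y.factor i).Φ then (1 : ℤ) else -1) else 0 := by
        intro i ψ
        change (∑ k, if (⟨(sec k).1, j.comp (sec k).2⟩ : Σ i : Y.I, ((Y.factor i).E →+* ℂ)) = ⟨i, ψ⟩
          then (1 : ℤ) else 0) * _ = _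
        rw [Finset.sum_mul]
        refine Finset.sum_congr rfl fun k _ => ?_
        split_ifs <;> simp
      rw [Finset.sum_congr rfl fun i _ => Finset.sum_congr rfl fun ψ _ => h4 i ψ]
      rw [Finset.sum_congr rfl fun i _ => Finset.sum_comm, Finset.sum_comm]
      refine Finset.sum_congr rfl fun k _ => ?_
      have h5 : (∑ i, ∑ ψ : (Y.factor i).E →+* ℂ,
          if (⟨(sec k).1, j.comp (sec k).2⟩ : Σ i : Y.I, ((Y.factor i).E →+* ℂ)) = ⟨i, ψ⟩
            then (if (τ : ℂ →+* ℂ).comp ψ ∈ (Y.factor i).Φ then (1 : ℤ) else -1) else 0) =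
          ∑ u : Σ i : Y.I, ((Y.factor i).E →+* ℂ),
          if (⟨(sec k).1, j.comp (sec k).2⟩ : Σ i : Y.I, ((Y.factor i).E →+* ℂ)) = u
            then (if (τ : ℂ →+* ℂ).comp u.2 ∈ (Y.factor u.1).Φ then (1 : ℤ) else -1) else 0 := by
        rw [Fintype.sum_sigma]
      rw [h5, Finset.sum_ite_eq Finset.univ, if_pos (Finset.mem_univ _)]
      refine if_congr ?_ rfl rfl
      change (τ : ℂ →+* ℂ).comp (j.comp (sec k).2) ∈ (Y.factor (sec k).1).Φ ↔ g ∈ s k
      rw [h2, hsec]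
    rw [h3]
    have h6 : ((∑ k, (if g ∈ s k then (1 : ℤ) else -1) : ℤ) : ℚ) = 0 := by
      rw [← h1]
      push_cast
      refine Finset.sum_congr rfl fun k _ => ?_
      unfold Comb.eps
      split_ifs <;> rfl
    exact_mod_cast h6

theorem good_block (X : CMAV) (j : L →+* ℂ)
    (hj : ∀ i, ∀ ψ : (X.factor i).E →+* ℂ, ∃ φ : (X.factor i).E →+* L, j.comp φ = ψ)
    (B : Set X.I) (hB : GoodBlock X B) :
    GoodSet X j {S | ∃ i ∈ B, S ∈ Set.range (hs (X.factor i) j)} := by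
  rcases B.eq_empty_or_nonempty with rfl | ⟨i0, hi0⟩
  · refine good_empty X j ?_
    rintro S ⟨i, hi, -⟩
    exact hi
  cases hB with
  | small hdeg hclo => exact good_small X j hj B hdeg hclo
  | five Y hY h =>
    let R : Set Y.I := {k | ∃ i ∈ B, SameType (X.factor i) (Y.factor k)}
    refine (good_five X j Y hY R ?_).mono ?_
    · rintro k ⟨i, hi, hik⟩
      exact big_of_sameType j hik (hj i)
    · rintro S ⟨i, hi, hS⟩
      obtain ⟨k, hk⟩ := h i hi
      refine ⟨k, ⟨i, hi, hk⟩, ?_⟩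
      rwa [← range_eq_of_sameType (X.factor i) (Y.factor k) j hk]
  | seven A hA h =>
    refine (good_seven X j A hA (big_of_sameType j (h i0 hi0) (hj i0))).mono ?_
    rintro S ⟨i, hi, hS⟩
    rwa [← range_eq_of_sameType (X.factor i) A j (h i hi)]
  | nondegenerate Y hY h =>
    let R : Set Y.I := {k | ∃ i ∈ B, SameType (X.factor i) (Y.factor k)}
    refine (good_nondegenerate X j Y hY R ?_).mono ?_
    · rintro k ⟨i, hi, hik⟩
      exact big_of_sameType j hik (hj i)
    · rintro S ⟨i, hi, hS⟩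
      obtain ⟨k, hk⟩ := h i hi
      refine ⟨k, ⟨i, hi, hk⟩, ?_⟩
      rwa [← range_eq_of_sameType (X.factor i) (Y.factor k) j hk]

/-- Hodge classes on products of abelian varieties of CM type in independent blocks. -/
theorem ring_blocks (X : CMAV) {J : Type} (b : X.I → J) (hX : IndependentBlocks X b)
    {κ : Type} [Finite κ] (f : X.H1 [⋀^κ]→ₗ[ℚ] ℚ) (hf : IsHodge X.per f) : DWRing X κ f := by
  classical
  refine ring_of_mono X ?_ f hf
  intro L _ _ _ _ j hj _ _ I hb
  refine good_union X j (fun i : J => {S | ∃ k, b k = i ∧ S ∈ Set.range (hs (X.factor k) j)})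
    (fun i => good_block X j hj {k | b k = i} (hX.good i)) ?_ _ κ rfl (fun k => St j (I k)) ?_ hb I
    (fun k => rfl)
  · intro i
    obtain ⟨τ, hτ⟩ := hX.independent i
    obtain ⟨g, hg⟩ := restrict_aut j τ
    refine ⟨g, ?_, ?_⟩
    · rintro S ⟨k, hk, φ, rfl⟩
      have h1 : g • φ = cc L • φ := by
        have h2 := ((hτ k (j.comp φ)).1 hk)
        ext x
        apply j.injective
        change j (g (φ x)) = j (cc L (φ x))
        rw [hg, emb_cc]
        exact RingHom.congr_fun h2 x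
      rw [tr_hs, h1, ← tr_hs]
      exact Comb.tr_c (fun g => cc_comm j g) (isHalf_hs _ j φ)
    · rintro i' hne S ⟨k, hk, φ, rfl⟩
      have h1 : g • φ = φ := by
        have h2 := ((hτ k (j.comp φ)).2 (by rw [hk]; exact hne))
        ext x
        apply j.injective
        change j (g (φ x)) = j (φ x)
        rw [hg]
        exact RingHom.congr_fun h2 x
      rw [tr_hs, h1]
  · intro k
    exact ⟨b (I k).1, (I k).1, rfl, (I k).2, rfl⟩

theorem isHodge_iff_ring_blocks (X : CMAV) {J : Type} (b : X.I → J) (hX : IndependentBlocks X b)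
    {κ : Type} [Finite κ] (f : X.H1 [⋀^κ]→ₗ[ℚ] ℚ) : IsHodge X.per f ↔ DWRing X κ f :=
  ⟨ring_blocks X b hX f, isHodge_of_ring⟩

end

end Pool.Agent.W547.UB
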